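import Pool.Graph.R_seed8.H437R2.A1

set_option autoImplicit false

/-!
# Zeta as a partial sum, a pole term and a tail integral
-/

namespace Pool.Agent.H363.HD

open Complex MeasureTheory Set Filter Topology

noncomputable section

/-- the tail of the integral of the fractional part -/
def HfN (N : ℕ) (s : ℂ) : ℂ := ∫ t in Ioi (N : ℝ), ((Int.fract t : ℝ) : ℂ) * (t : ℂ) ^ (-(s + 1))

lemma tail_bd {s : ℂ} {t : ℝ} (ht0 : 0 < t) :
    ‖((Int.fract t : ℝ) : ℂ) * (t : ℂ) ^ (-(s + 1))‖ ≤ t ^ (-s.re - 1) := by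
  rw [norm_mul, Complex.norm_real, Real.norm_of_nonneg (Int.fract_nonneg t),
    Complex.norm_cpow_eq_rpow_re_of_pos ht0]
  have h2 : (-(s + 1)).re = -s.re - 1 := by simp; ring
  rw [h2]
  have h3 : 0 ≤ t ^ (-s.re - 1) := (Real.rpow_pos_of_pos ht0 _).le
  have h4 := (Int.fract_lt_one t).le
  calc Int.fract t * t ^ (-s.re - 1) ≤ 1 * t ^ (-s.re - 1) := mul_le_mul_of_nonneg_right h4 h3
    _ = _ := one_mul _

lemma tail_int {s : ℂ} (hs : 0 < s.re) {N : ℕ} (hN : 1 ≤ N) :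
    IntegrableOn (fun t : ℝ => ((Int.fract t : ℝ) : ℂ) * (t : ℂ) ^ (-(s + 1))) (Ioi (N : ℝ)) := by
  have hN0 : (0 : ℝ) < N := by exact_mod_cast hN
  refine Integrable.mono' (g := fun t : ℝ => t ^ (-s.re - 1))
    (integrableOn_Ioi_rpow_of_lt (by linarith) hN0) ?_ ?_
  · refine AEStronglyMeasurable.mul ?_ ?_
    · exact (Complex.measurable_ofReal.comp measurable_fract).aestronglyMeasurable
    · refine ContinuousOn.aestronglyMeasurable ?_ measurableSet_Ioi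
      intro t ht
      have ht0 : 0 < t := lt_trans hN0 ht
      refine ContinuousAt.continuousWithinAt ?_
      exact (continuousAt_ofReal_cpow_const t (-(s + 1)) (Or.inr ht0.ne'))
  · refine (ae_restrict_mem measurableSet_Ioi).mono fun t ht => ?_
    exact tail_bd (lt_trans hN0 ht)

lemma tail_norm {s : ℂ} (hs : 0 < s.re) {N : ℕ} (hN : 1 ≤ N) :
    ‖HfN N s‖ ≤ (N : ℝ) ^ (-s.re) / s.re := by
  have hN0 : (0 : ℝ) < N := by exact_mod_cast hN
  have h1 : ∫ t in Ioi (N : ℝ), t ^ (-s.re - 1) = (N : ℝ) ^ (-s.re) / s.re := by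
    rw [integral_Ioi_rpow_of_lt (by linarith) hN0]
    have : -s.re - 1 + 1 = -s.re := by ring
    rw [this, neg_div_neg_eq]
  unfold HfN
  rw [← h1]
  refine norm_integral_le_of_norm_le (integrableOn_Ioi_rpow_of_lt (by linarith) hN0) ?_
  refine (ae_restrict_mem measurableSet_Ioi).mono fun t ht => ?_
  exact tail_bd (lt_trans hN0 ht)

lemma step {s : ℂ} (hs : s ≠ 0) (hs1 : s ≠ 1) {N : ℕ} (hN : 1 ≤ N) :
    (-s) * ∫ t in Ioc (N : ℝ) ((N + 1 : ℕ) : ℝ), ((Int.fract t : ℝ) : ℂ) * (t : ℂ) ^ (-(s + 1)) =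
      ((N + 1 : ℕ) : ℂ) ^ (-s) - (((N + 1 : ℕ) : ℂ) ^ (1 - s) - (N : ℂ) ^ (1 - s)) / (1 - s) := by
  have hN0 : (0 : ℝ) < N := by exact_mod_cast hN
  have hle : (N : ℝ) ≤ ((N + 1 : ℕ) : ℝ) := by push_cast; linarith
  have h0 : (0 : ℝ) ∉ uIcc (N : ℝ) ((N + 1 : ℕ) : ℝ) := by
    rw [uIcc_of_le hle]
    intro h
    exact absurd h.1 (by linarith)
  have hcont : ∀ r : ℂ, ContinuousOn (fun t : ℝ => (t : ℂ) ^ r) (uIcc (N : ℝ) ((N + 1 : ℕ) : ℝ)) := by
    intro r t ht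
    have ht0 : t ≠ 0 := fun h => h0 (h ▸ ht)
    exact (continuousAt_ofReal_cpow_const t r (Or.inr ht0)).continuousWithinAt
  have e1 : ∫ t in Ioc (N : ℝ) ((N + 1 : ℕ) : ℝ), ((Int.fract t : ℝ) : ℂ) * (t : ℂ) ^ (-(s + 1)) =
      ∫ t in (N : ℝ)..((N + 1 : ℕ) : ℝ), ((t : ℂ) ^ (-s) - (N : ℂ) * (t : ℂ) ^ (-(s + 1))) := by
    rw [intervalIntegral.integral_of_le hle]
    rw [integral_Ioc_eq_integral_Ioo, integral_Ioc_eq_integral_Ioo]
    refine setIntegral_congr_fun measurableSet_Ioo ?_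
    intro t ht
    have ht0 : 0 < t := lt_trans hN0 ht.1
    have hf : Int.fract t = t - N := by
      rw [Int.fract_eq_iff]
      refine ⟨by linarith [ht.1], ?_, (N : ℤ), by push_cast; ring⟩
      have := ht.2
      push_cast at this
      linarith
    have htc : (t : ℂ) ≠ 0 := by exact_mod_cast ht0.ne'
    have hp : (t : ℂ) ^ (-s) = (t : ℂ) * (t : ℂ) ^ (-(s + 1)) := by
      have : -s = -(s + 1) + 1 := by ring
      rw [this, Complex.cpow_add _ _ htc, Complex.cpow_one]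
      ring
    show ((Int.fract t : ℝ) : ℂ) * (t : ℂ) ^ (-(s + 1)) = (t : ℂ) ^ (-s) - (N : ℂ) * (t : ℂ) ^ (-(s + 1))
    rw [hf, hp]
    push_cast
    ring
  have i1 : IntervalIntegrable (fun t : ℝ => (t : ℂ) ^ (-s)) volume (N : ℝ) ((N + 1 : ℕ) : ℝ) :=
    (hcont _).intervalIntegrable
  have i2 : IntervalIntegrable (fun t : ℝ => (N : ℂ) * (t : ℂ) ^ (-(s + 1))) volume (N : ℝ) ((N + 1 : ℕ) : ℝ) :=
    (continuousOn_const.mul (hcont _)).intervalIntegrable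
  have hs1' : -s ≠ -1 := fun h => hs1 (neg_injective h)
  have hs2' : -(s + 1) ≠ -1 := by
    intro h
    apply hs
    have := neg_injective h
    have h2 : s + 1 - 1 = 1 - 1 := by rw [this]
    simpa using h2
  rw [e1, intervalIntegral.integral_sub i1 i2, intervalIntegral.integral_const_mul,
    integral_cpow (Or.inr ⟨hs1', h0⟩), integral_cpow (Or.inr ⟨hs2', h0⟩)]
  have hNc : (N : ℂ) ≠ 0 := by exact_mod_cast hN0.ne'
  have hNc1 : ((N + 1 : ℕ) : ℂ) ≠ 0 := by exact_mod_cast (Nat.succ_ne_zero N)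
  have ea : -s + 1 = 1 - s := by ring
  have eb : -(s + 1) + 1 = -s := by ring
  have ec : (((N : ℝ)) : ℂ) = (N : ℂ) := by push_cast; rfl
  have ed : ((((N + 1 : ℕ) : ℝ)) : ℂ) = ((N + 1 : ℕ) : ℂ) := by push_cast; rfl
  rw [ea, eb, ec, ed]
  have p1 : ((N + 1 : ℕ) : ℂ) ^ (1 - s) = ((N + 1 : ℕ) : ℂ) * ((N + 1 : ℕ) : ℂ) ^ (-s) := by
    have : 1 - s = -s + 1 := by ring
    rw [this, Complex.cpow_add _ _ hNc1, Complex.cpow_one]
    ring
  have p2 : (N : ℂ) ^ (1 - s) = (N : ℂ) * (N : ℂ) ^ (-s) := by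
    have : 1 - s = -s + 1 := by ring
    rw [this, Complex.cpow_add _ _ hNc, Complex.cpow_one]
    ring
  have hs3 : 1 - s ≠ 0 := fun h => hs1 (sub_eq_zero.mp h).symm
  rw [p1, p2]
  generalize ((N + 1 : ℕ) : ℂ) ^ (-s) = X
  generalize (N : ℂ) ^ (-s) = Y
  push_cast
  field_simp
  ring

theorem zeta_N {s : ℂ} (hs : 0 < s.re) (hs1 : s ≠ 1) {N : ℕ} (hN : 1 ≤ N) :
    riemannZeta s = ∑ n ∈ Finset.Icc 1 N, (n : ℂ) ^ (-s) - (N : ℂ) ^ (1 - s) / (1 - s) - s * HfN N s := by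
  have hs0 : s ≠ 0 := by
    intro h
    rw [h] at hs
    simp at hs
  have hs3 : 1 - s ≠ 0 := fun h => hs1 (sub_eq_zero.mp h).symm
  have hs4 : s - 1 ≠ 0 := fun h => hs1 (sub_eq_zero.mp h)
  induction N, hN using Nat.le_induction with
  | base =>
    have h1 := Pool.Agent.H437R2.z1_eq hs
    rw [Pool.Agent.H437R2.z1_of_ne hs1] at h1
    unfold Pool.Agent.H437R2.Zt at h1
    rw [Pool.Agent.H437R2.Hf_eq] at h1
    have h2 : HfN 1 s = ∫ t in Ioi (1:ℝ), ((Int.fract t : ℝ) : ℂ) * (t : ℂ) ^ (-(s + 1)) := by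
      unfold HfN
      rw [Nat.cast_one]
    rw [← h2] at h1
    simp only [Finset.Icc_self, Finset.sum_singleton, Nat.cast_one, Complex.one_cpow]
    have h3 : riemannZeta s = (s - s * (s - 1) * HfN 1 s) / (s - 1) := by
      rw [← h1]
      field_simp
    rw [h3]
    have h4 : (1 : ℂ) / (1 - s) = - (1 / (s - 1)) := by
      rw [← neg_sub s 1, div_neg]
    rw [h4]
    field_simp
    ring
  | succ N hN ih =>
    rw [ih, Finset.sum_Icc_succ_top (by omega)]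
    have hsplit : HfN N s = (∫ t in Ioc (N : ℝ) ((N + 1 : ℕ) : ℝ),
        ((Int.fract t : ℝ) : ℂ) * (t : ℂ) ^ (-(s + 1))) + HfN (N + 1) s := by
      unfold HfN
      have hle : (N : ℝ) ≤ ((N + 1 : ℕ) : ℝ) := by push_cast; linarith
      rw [← Ioc_union_Ioi_eq_Ioi hle]
      refine setIntegral_union ?_ measurableSet_Ioi ?_ ?_
      · exact Ioc_disjoint_Ioi le_rfl
      · exact (tail_int hs hN).mono_set Ioc_subset_Ioi_self
      · exact tail_int hs (by omega)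
    have h5 := step hs0 hs1 hN
    rw [hsplit, mul_add]
    generalize (∫ t in Ioc (N : ℝ) ((N + 1 : ℕ) : ℝ),
        ((Int.fract t : ℝ) : ℂ) * (t : ℂ) ^ (-(s + 1))) = J at h5 ⊢
    have h6 : s * J = -(((N + 1 : ℕ) : ℂ) ^ (-s) - (((N + 1 : ℕ) : ℂ) ^ (1 - s) - (N : ℂ) ^ (1 - s)) / (1 - s)) := by
      rw [← h5]
      ring
    rw [h6]
    ring

end

end Pool.Agent.H363.HD
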