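import Pool.Agent.H466.HD.SA
import Pool.Agent.H363.HD.DB1

set_option autoImplicit false

/-!
# A smooth piece of zeta as an average of zeta on the critical line
-/

namespace Pool.Agent.H363.HD

open Complex MeasureTheory Set Filter Topology
open Pool.Agent.H466.HD

noncomputable section

variable {β : ℝ → ℝ} {k : ℝ → ℂ} {C : ℝ}

lemma Kn_cont (hb : Bump β k C) (c w : ℝ) : Continuous (Kn k c w) := by
  unfold Kn
  have := hb.kcont
  fun_prop

lemma nexp (x v : ℝ) : ‖cexp (I * x * v)‖ = 1 := by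
  have : I * (x : ℂ) * (v : ℂ) = ((x * v : ℝ) : ℂ) * I := by push_cast; ring
  rw [this, Complex.norm_exp_ofReal_mul_I]

lemma nexp' (x v : ℝ) : ‖cexp (-(I * x * v))‖ = 1 := by
  have : -(I * (x : ℂ) * (v : ℂ)) = ((-(x * v) : ℝ) : ℂ) * I := by push_cast; ring
  rw [this, Complex.norm_exp_ofReal_mul_I]

lemma Kn_bd (hb : Bump β k C) (c : ℝ) {w : ℝ} (hw : 1 ≤ w) (v : ℝ) :
    ‖Kn k c w v‖ ≤ w * C / (1 + |v|) ^ 10 := by
  unfold Kn
  rw [norm_mul, norm_mul, nexp, mul_one, Complex.norm_real, Real.norm_of_nonneg (by linarith)]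
  have h1 := hb.kbd (w * v)
  have h2 : (1 + |v|) ^ 10 ≤ (1 + |w * v|) ^ 10 := by
    have hv := abs_nonneg v
    rw [abs_mul, abs_of_nonneg (by linarith : (0:ℝ) ≤ w)]
    have : |v| ≤ w * |v| := by nlinarith
    gcongr
  have h3 : 0 < (1 + |v|) ^ 10 := by
    have hv := abs_nonneg v
    positivity
  have hC := hb.Cp
  calc w * ‖k (w * v)‖ ≤ w * (C / (1 + |w * v|) ^ 10) := by gcongr
    _ ≤ w * (C / (1 + |v|) ^ 10) := by gcongr
    _ = w * C / (1 + |v|) ^ 10 := by ring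

/-- the majorant -/
def maj (v : ℝ) : ℝ := (1 + ‖v‖) ^ (-(9 : ℝ))

lemma maj_int : Integrable maj := by
  unfold maj
  exact integrable_one_add_norm (by simp)

lemma maj_eq (v : ℝ) : maj v = 1 / (1 + |v|) ^ 9 := by
  unfold maj
  have hv := abs_nonneg v
  rw [Real.norm_eq_abs, Real.rpow_neg (by linarith)]
  have : (9 : ℝ) = ((9 : ℕ) : ℝ) := by norm_num
  rw [this, Real.rpow_natCast, one_div]

lemma maj_nonneg (v : ℝ) : 0 ≤ maj v := by
  rw [maj_eq]
  have hv := abs_nonneg v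
  positivity

lemma gK_bd (hb : Bump β k C) (c : ℝ) {w : ℝ} (hw : 1 ≤ w) {g : ℝ → ℂ} {A : ℝ}
    (hA : ∀ v, ‖g v‖ ≤ A * (1 + |v|)) (v : ℝ) : ‖g v * Kn k c w v‖ ≤ A * (w * C * maj v) := by
  have hv := abs_nonneg v
  have h1 := hA v
  have h2 := Kn_bd hb c hw v
  have hC := hb.Cp
  rw [norm_mul, maj_eq]
  have h0 : 0 ≤ A * (1 + |v|) := le_trans (norm_nonneg _) h1
  calc ‖g v‖ * ‖Kn k c w v‖ ≤ (A * (1 + |v|)) * (w * C / (1 + |v|) ^ 10) := by gcongr
    _ = A * (w * C * (1 / (1 + |v|) ^ 9)) := by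
      have : (1 + |v|) ≠ 0 := by positivity
      field_simp

lemma gK_int (hb : Bump β k C) (c : ℝ) {w : ℝ} (hw : 1 ≤ w) {g : ℝ → ℂ} (hg : Continuous g) {A : ℝ}
    (hA : ∀ v, ‖g v‖ ≤ A * (1 + |v|)) : Integrable (fun v => g v * Kn k c w v) := by
  refine Integrable.mono' ((maj_int.const_mul (w * C)).const_mul A)
    (hg.mul (Kn_cont hb c w)).aestronglyMeasurable (ae_of_all _ fun v => ?_)
  exact gK_bd hb c hw hA v

lemma gK_norm (hb : Bump β k C) (c : ℝ) {w : ℝ} (hw : 1 ≤ w) {g : ℝ → ℂ} {A : ℝ}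
    (hA : ∀ v, ‖g v‖ ≤ A * (1 + |v|)) :
    ‖∫ v, g v * Kn k c w v‖ ≤ A * (w * C * ∫ v, maj v) := by
  have := norm_integral_le_of_norm_le ((maj_int.const_mul (w * C)).const_mul A)
    (ae_of_all _ fun v => gK_bd hb c hw hA v)
  rw [integral_const_mul, integral_const_mul] at this
  exact this

lemma four (hb : Bump β k C) (c : ℝ) {w : ℝ} (hw : 1 ≤ w) (x : ℝ) :
    ∫ v : ℝ, Kn k c w v * cexp (-(I * x * v)) = (β ((x - c) / w) : ℂ) := by
  have hw0 : (0 : ℝ) < w := by linarith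
  rw [hb.inv]
  have h1 := MeasureTheory.Measure.integral_comp_mul_left
    (fun v : ℝ => k v * cexp (-(I * ((x - c) / w : ℝ) * v))) w
  have h2 : (∫ v : ℝ, k v * cexp (-(I * ((x - c) / w : ℝ) * v))) =
      (w : ℂ) * ∫ v : ℝ, k (w * v) * cexp (-(I * ((x - c) / w : ℝ) * ((w * v : ℝ) : ℂ))) := by
    rw [h1, abs_of_pos (inv_pos.mpr hw0), Complex.real_smul, ← mul_assoc]
    have : (w : ℂ) * ((w⁻¹ : ℝ) : ℂ) = 1 := by
      have hwc : (w : ℂ) ≠ 0 := by exact_mod_cast hw0.ne'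
      push_cast
      exact mul_inv_cancel₀ hwc
    rw [this, one_mul]
  rw [h2, ← integral_const_mul]
  refine integral_congr_ae (ae_of_all _ fun v => ?_)
  show Kn k c w v * cexp (-(I * x * v)) =
    (w : ℂ) * (k (w * v) * cexp (-(I * ((x - c) / w : ℝ) * ((w * v : ℝ) : ℂ))))
  unfold Kn
  have e : -(I * (((x - c) / w : ℝ) : ℂ) * ((w * v : ℝ) : ℂ)) = I * c * v + -(I * x * v) := by
    have hwc : (w : ℂ) ≠ 0 := by exact_mod_cast hw0.ne'
    push_cast
    field_simp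
    ring
  rw [e, Complex.exp_add]
  ring

lemma Kn_int (hb : Bump β k C) (c : ℝ) {w : ℝ} (hw : 1 ≤ w) : Integrable (Kn k c w) := by
  have := gK_int hb c hw (g := fun _ => (1 : ℂ)) continuous_const (A := 1) (fun v => by
    have hv := abs_nonneg v
    rw [norm_one]
    linarith)
  simpa using this

lemma pole (hb : Bump β k C) (c : ℝ) {w : ℝ} (hw : 1 ≤ w) (y U : ℝ) :
    ∫ v : ℝ, cexp ((1 / 2 - ((y + v : ℝ) : ℂ) * I) * U) / (1 / 2 - ((y + v : ℝ) : ℂ) * I) * Kn k c w v =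
      ∫ u in Iic U, cexp (u * (1 / 2 - (y : ℂ) * I)) * (β ((u - c) / w) : ℂ) := by
  have h1 : ∀ v : ℝ, cexp ((1 / 2 - ((y + v : ℝ) : ℂ) * I) * U) / (1 / 2 - ((y + v : ℝ) : ℂ) * I) * Kn k c w v =
      ∫ u in Iic U, cexp ((1 / 2 - ((y + v : ℝ) : ℂ) * I) * u) * Kn k c w v := by
    intro v
    have hre : 0 < (1 / 2 - ((y + v : ℝ) : ℂ) * I).re := by simp
    rw [← integral_exp_mul_complex_Iic hre U, integral_mul_const]
  simp_rw [h1]
  have hcont : Continuous (fun z : ℝ × ℝ => cexp ((1 / 2 - ((y + z.1 : ℝ) : ℂ) * I) * z.2) * Kn k c w z.1) := by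
    have := Kn_cont hb c w
    fun_prop
  have hnorm : ∀ z : ℝ × ℝ, ‖cexp ((1 / 2 - ((y + z.1 : ℝ) : ℂ) * I) * z.2) * Kn k c w z.1‖ =
      ‖Kn k c w z.1‖ * Real.exp (1 / 2 * z.2) := by
    intro z
    rw [norm_mul, Complex.norm_exp, mul_comm]
    have : ((1 / 2 - ((y + z.1 : ℝ) : ℂ) * I) * z.2).re = 1 / 2 * z.2 := by
      simp
    rw [this]
  have hI : Integrable (fun z : ℝ × ℝ => cexp ((1 / 2 - ((y + z.1 : ℝ) : ℂ) * I) * z.2) * Kn k c w z.1)
      (volume.prod (volume.restrict (Iic U))) := by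
    have hexp : Integrable (fun u : ℝ => Real.exp (1 / 2 * u)) (volume.restrict (Iic U)) :=
      integrableOn_exp_mul_Iic (by norm_num) U
    refine Integrable.mono' ((Kn_int hb c hw).norm.mul_prod hexp) hcont.aestronglyMeasurable
      (ae_of_all _ fun z => ?_)
    exact (hnorm z).le
  have hsw := integral_integral_swap (μ := volume) (ν := volume.restrict (Iic U))
    (f := fun (v u : ℝ) => cexp ((1 / 2 - ((y + v : ℝ) : ℂ) * I) * u) * Kn k c w v) hI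
  rw [hsw]
  refine setIntegral_congr_fun measurableSet_Iic fun u _ => ?_
  show ∫ v : ℝ, cexp ((1 / 2 - ((y + v : ℝ) : ℂ) * I) * u) * Kn k c w v =
    cexp (u * (1 / 2 - (y : ℂ) * I)) * (β ((u - c) / w) : ℂ)
  rw [← four hb c hw u, ← integral_const_mul]
  refine integral_congr_ae (ae_of_all _ fun v => ?_)
  show cexp ((1 / 2 - ((y + v : ℝ) : ℂ) * I) * u) * Kn k c w v =
    cexp (u * (1 / 2 - (y : ℂ) * I)) * (Kn k c w v * cexp (-(I * u * v)))
  have e : (1 / 2 - ((y + v : ℝ) : ℂ) * I) * u = u * (1 / 2 - (y : ℂ) * I) + -(I * u * v) := by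
    push_cast
    ring
  rw [e, Complex.exp_add]
  ring

lemma rn_eq (hb : Bump β k C) (c : ℝ) {w : ℝ} (hw : 1 ≤ w) (y U : ℝ) (hU : c + w ≤ U) :
    ∫ u in Iic U, cexp (u * (1 / 2 - (y : ℂ) * I)) * (β ((u - c) / w) : ℂ) = Rn β c w y := by
  have hw0 : (0 : ℝ) < w := by linarith
  have h1 : ∫ u in Iic U, cexp (u * (1 / 2 - (y : ℂ) * I)) * (β ((u - c) / w) : ℂ) =
      ∫ u : ℝ, cexp (u * (1 / 2 - (y : ℂ) * I)) * (β ((u - c) / w) : ℂ) := by
    apply setIntegral_eq_integral_of_forall_compl_eq_zero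
    intro u hu
    have hu' : U < u := by simpa using hu
    have : β ((u - c) / w) = 0 := by
      apply hb.supp
      rw [abs_of_nonneg (div_nonneg (by linarith) hw0.le), le_div_iff₀ hw0]
      linarith
    rw [this]
    simp
  rw [h1]
  unfold Rn
  have h2 := integral_add_right_eq_self (μ := (volume : Measure ℝ))
    (fun u : ℝ => cexp (u * (1 / 2 - (y : ℂ) * I)) * (β ((u - c) / w) : ℂ)) c
  rw [← h2]
  have h3 := MeasureTheory.Measure.integral_comp_mul_left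
    (fun u : ℝ => cexp (((u + c : ℝ) : ℂ) * (1 / 2 - (y : ℂ) * I)) * (β ((u + c - c) / w) : ℂ)) w
  have h4 : (∫ u : ℝ, cexp (((u + c : ℝ) : ℂ) * (1 / 2 - (y : ℂ) * I)) * (β ((u + c - c) / w) : ℂ)) =
      (w : ℂ) * ∫ x : ℝ, cexp (((w * x + c : ℝ) : ℂ) * (1 / 2 - (y : ℂ) * I)) * (β ((w * x + c - c) / w) : ℂ) := by
    rw [h3, abs_of_pos (inv_pos.mpr hw0), Complex.real_smul, ← mul_assoc]
    have : (w : ℂ) * ((w⁻¹ : ℝ) : ℂ) = 1 := by
      have hwc : (w : ℂ) ≠ 0 := by exact_mod_cast hw0.ne'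
      push_cast
      exact mul_inv_cancel₀ hwc
    rw [this, one_mul]
  rw [h4]
  have h5 : (∫ x : ℝ, cexp (((w * x + c : ℝ) : ℂ) * (1 / 2 - (y : ℂ) * I)) * (β ((w * x + c - c) / w) : ℂ)) =
      ∫ x : ℝ, (β x : ℂ) * cexp ((c + w * x) * (1 / 2 - (y : ℂ) * I)) := by
    refine integral_congr_ae (ae_of_all _ fun x => ?_)
    show cexp (((w * x + c : ℝ) : ℂ) * (1 / 2 - (y : ℂ) * I)) * (β ((w * x + c - c) / w) : ℂ) =
      (β x : ℂ) * cexp ((c + w * x) * (1 / 2 - (y : ℂ) * I))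
    have e1 : (w * x + c - c) / w = x := by field_simp; ring
    have e2 : ((w * x + c : ℝ) : ℂ) = c + w * x := by push_cast; ring
    rw [e1, e2]
    ring
  rw [h5]

/-- the point on the critical line -/
def sp (y v : ℝ) : ℂ := 1 / 2 + ((y + v : ℝ) : ℂ) * I

lemma sp_re (y v : ℝ) : (sp y v).re = 1 / 2 := by
  unfold sp
  simp

lemma sp_ne (y v : ℝ) : sp y v ≠ 1 := by
  intro h
  have := congrArg Complex.re h
  rw [sp_re] at this
  norm_num at this

lemma sp_cont (y : ℝ) : Continuous (sp y) := by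
  unfold sp
  fun_prop

lemma sp_one (y v : ℝ) : 1 - sp y v = 1 / 2 - ((y + v : ℝ) : ℂ) * I := by
  unfold sp
  ring

lemma sp_norm (y v : ℝ) : ‖sp y v‖ ≤ (1 + |y|) * (1 + |v|) := by
  unfold sp
  have h1 : ‖(1 / 2 : ℂ) + ((y + v : ℝ) : ℂ) * I‖ ≤ 1 / 2 + |y + v| := by
    refine (norm_add_le _ _).trans ?_
    rw [norm_mul, Complex.norm_I, mul_one, Complex.norm_real, Real.norm_eq_abs]
    have : ‖(1 / 2 : ℂ)‖ = 1 / 2 := by norm_num
    rw [this]
  have h2 := abs_add_le y v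
  have h3 := abs_nonneg y
  have h4 := abs_nonneg v
  nlinarith [mul_nonneg h3 h4]

lemma sp_inv (y v : ℝ) : ‖1 - sp y v‖ ≥ 1 / 2 := by
  have h1 := Complex.abs_re_le_norm (1 - sp y v)
  have h2 : (1 - sp y v).re = 1 / 2 := by
    rw [Complex.sub_re, Complex.one_re, sp_re]
    norm_num
  rw [h2, abs_of_pos (by norm_num)] at h1
  exact h1

/-- the terms -/
lemma t_cont (y : ℝ) {n : ℕ} (hn : 1 ≤ n) : Continuous (fun v : ℝ => (n : ℂ) ^ (-(sp y v))) := by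
  have hn0 : (n : ℂ) ≠ 0 := by exact_mod_cast (by omega : n ≠ 0)
  have := sp_cont y
  refine Continuous.const_cpow (by fun_prop) (Or.inl hn0)

lemma t_norm (y v : ℝ) {n : ℕ} (hn : 1 ≤ n) : ‖(n : ℂ) ^ (-(sp y v))‖ ≤ 1 := by
  have hn0 : (0 : ℝ) < n := by exact_mod_cast hn
  have h1 : ‖(n : ℂ) ^ (-(sp y v))‖ = (n : ℝ) ^ (-(1 / 2) : ℝ) := by
    have := Complex.norm_cpow_eq_rpow_re_of_pos hn0 (-(sp y v))
    rw [Complex.neg_re, sp_re] at this
    rw [← this]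
    push_cast
    rfl
  rw [h1]
  apply Real.rpow_le_one_of_one_le_of_nonpos
  · exact_mod_cast hn
  · norm_num

lemma t_four (hb : Bump β k C) (c : ℝ) {w : ℝ} (hw : 1 ≤ w) (y : ℝ) {n : ℕ} (hn : 1 ≤ n) :
    ∫ v : ℝ, (n : ℂ) ^ (-(sp y v)) * Kn k c w v =
      (β ((Real.log n - c) / w) : ℂ) * (n : ℂ) ^ (-(1 / 2 + (y : ℂ) * I)) := by
  have hn0 : (n : ℂ) ≠ 0 := by exact_mod_cast (by omega : n ≠ 0)
  have hn1 : (0 : ℝ) ≤ n := Nat.cast_nonneg n
  rw [← four hb c hw (Real.log n), ← integral_mul_const]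
  refine integral_congr_ae (ae_of_all _ fun v => ?_)
  show (n : ℂ) ^ (-(sp y v)) * Kn k c w v =
    Kn k c w v * cexp (-(I * (Real.log n : ℝ) * v)) * (n : ℂ) ^ (-(1 / 2 + (y : ℂ) * I))
  have hl : ((Real.log n : ℝ) : ℂ) = Complex.log n := by
    rw [Complex.ofReal_log hn1]
    push_cast
    rfl
  rw [Complex.cpow_def_of_ne_zero hn0, Complex.cpow_def_of_ne_zero hn0, hl]
  have e : Complex.log n * -(sp y v) = -(I * Complex.log n * v) + Complex.log n * -(1 / 2 + (y : ℂ) * I) := by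
    unfold sp
    push_cast
    ring
  rw [e, Complex.exp_add]
  ring

lemma p_eq (y v : ℝ) {N : ℕ} (hN : 1 ≤ N) : (N : ℂ) ^ (1 - sp y v) / (1 - sp y v) =
    cexp ((1 / 2 - ((y + v : ℝ) : ℂ) * I) * (Real.log N : ℝ)) / (1 / 2 - ((y + v : ℝ) : ℂ) * I) := by
  have hn0 : (N : ℂ) ≠ 0 := by exact_mod_cast (by omega : N ≠ 0)
  have hn1 : (0 : ℝ) ≤ N := Nat.cast_nonneg N
  have hl : ((Real.log N : ℝ) : ℂ) = Complex.log N := by
    rw [Complex.ofReal_log hn1]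
    push_cast
    rfl
  rw [Complex.cpow_def_of_ne_zero hn0, hl, sp_one, mul_comm (Complex.log N)]

lemma p_cont (y : ℝ) {N : ℕ} (hN : 1 ≤ N) :
    Continuous (fun v : ℝ => (N : ℂ) ^ (1 - sp y v) / (1 - sp y v)) := by
  have hn0 : (N : ℂ) ≠ 0 := by exact_mod_cast (by omega : N ≠ 0)
  have h1 := sp_cont y
  refine Continuous.div (Continuous.const_cpow (by fun_prop) (Or.inl hn0)) (by fun_prop) ?_
  intro v h
  have := sp_inv y v
  rw [h, norm_zero] at this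
  norm_num at this

lemma p_norm (y v : ℝ) {N : ℕ} (hN : 1 ≤ N) :
    ‖(N : ℂ) ^ (1 - sp y v) / (1 - sp y v)‖ ≤ 2 * (N : ℝ) ^ (1 / 2 : ℝ) := by
  have hn0 : (0 : ℝ) < N := by exact_mod_cast hN
  have h1 : ‖(N : ℂ) ^ (1 - sp y v)‖ = (N : ℝ) ^ (1 / 2 : ℝ) := by
    have := Complex.norm_cpow_eq_rpow_re_of_pos hn0 (1 - sp y v)
    rw [Complex.sub_re, Complex.one_re, sp_re] at this
    have e : (1 : ℝ) - 1 / 2 = 1 / 2 := by norm_num
    rw [e] at this
    rw [← this]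
    push_cast
    rfl
  rw [norm_div, h1]
  have h2 := sp_inv y v
  have h3 : 0 ≤ (N : ℝ) ^ (1 / 2 : ℝ) := Real.rpow_nonneg hn0.le _
  rw [div_le_iff₀ (by linarith)]
  nlinarith

lemma z_cont (y : ℝ) : Continuous (fun v : ℝ => riemannZeta (sp y v)) := by
  rw [continuous_iff_continuousAt]
  intro v
  exact (differentiableAt_riemannZeta (sp_ne y v)).continuousAt.comp (sp_cont y).continuousAt

/-- the error term -/
def er (y : ℝ) (N : ℕ) (v : ℝ) : ℂ := sp y v * HfN N (sp y v)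

lemma z_eq (y v : ℝ) {N : ℕ} (hN : 1 ≤ N) : riemannZeta (sp y v) =
    ∑ n ∈ Finset.Icc 1 N, (n : ℂ) ^ (-(sp y v)) - (N : ℂ) ^ (1 - sp y v) / (1 - sp y v) - er y N v :=
  zeta_N (by rw [sp_re]; norm_num) (sp_ne y v) hN

lemma s_cont (y : ℝ) (N : ℕ) : Continuous (fun v : ℝ => ∑ n ∈ Finset.Icc 1 N, (n : ℂ) ^ (-(sp y v))) := by
  refine continuous_finsetSum _ fun n hn => ?_
  exact t_cont y (Finset.mem_Icc.mp hn).1

lemma er_cont (y : ℝ) {N : ℕ} (hN : 1 ≤ N) : Continuous (er y N) := by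
  have h1 : er y N = fun v => ∑ n ∈ Finset.Icc 1 N, (n : ℂ) ^ (-(sp y v)) -
      (N : ℂ) ^ (1 - sp y v) / (1 - sp y v) - riemannZeta (sp y v) := by
    funext v
    rw [z_eq y v hN]
    ring
  rw [h1]
  exact ((s_cont y N).sub (p_cont y hN)).sub (z_cont y)

lemma er_norm (y : ℝ) {N : ℕ} (hN : 1 ≤ N) (v : ℝ) :
    ‖er y N v‖ ≤ (1 + |y|) * (2 * (N : ℝ) ^ (-(1 / 2) : ℝ)) * (1 + |v|) := by
  unfold er
  rw [norm_mul]
  have h1 := sp_norm y v
  have h2 := tail_norm (s := sp y v) (by rw [sp_re]; norm_num) hN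
  rw [sp_re] at h2
  have h3 : (N : ℝ) ^ (-(1 / 2) : ℝ) / (1 / 2) = 2 * (N : ℝ) ^ (-(1 / 2) : ℝ) := by ring
  rw [h3] at h2
  have h4 := abs_nonneg y
  have h5 := abs_nonneg v
  calc ‖sp y v‖ * ‖HfN N (sp y v)‖ ≤ ((1 + |y|) * (1 + |v|)) * (2 * (N : ℝ) ^ (-(1 / 2) : ℝ)) := by gcongr
    _ = _ := by ring

lemma one_le_aux {A : ℝ} (hA : 0 ≤ A) (v : ℝ) : A ≤ A * (1 + |v|) := by
  have := abs_nonneg v
  nlinarith

/-- **HD-DB** -/
theorem db : S_DB := by
  intro β k C hb c w y hw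
  have hZ : ∀ v : ℝ, Zt (y + v) = riemannZeta (sp y v) := fun v => rfl
  simp_rw [hZ]
  -- integrability of the pieces
  have hs : ∀ n : ℕ, 1 ≤ n → Integrable (fun v : ℝ => (n : ℂ) ^ (-(sp y v)) * Kn k c w v) := by
    intro n hn
    refine gK_int hb c hw (t_cont y hn) (A := 1) fun v => ?_
    exact (t_norm y v hn).trans (one_le_aux zero_le_one v)
  have hp : ∀ N : ℕ, 1 ≤ N →
      Integrable (fun v : ℝ => (N : ℂ) ^ (1 - sp y v) / (1 - sp y v) * Kn k c w v) := by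
    intro N hN
    refine gK_int hb c hw (p_cont y hN) (A := 2 * (N : ℝ) ^ (1 / 2 : ℝ)) fun v => ?_
    have h0 : 0 ≤ 2 * (N : ℝ) ^ (1 / 2 : ℝ) := by positivity
    exact (p_norm y v hN).trans (one_le_aux h0 v)
  have he : ∀ N : ℕ, 1 ≤ N → Integrable (fun v : ℝ => er y N v * Kn k c w v) := by
    intro N hN
    exact gK_int hb c hw (er_cont y hN) (er_norm y hN)
  have hsum : ∀ N : ℕ, Integrable (fun v : ℝ => ∑ n ∈ Finset.Icc 1 N, (n : ℂ) ^ (-(sp y v)) * Kn k c w v) := by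
    intro N
    exact integrable_finsetSum _ fun n hn => hs n (Finset.mem_Icc.mp hn).1
  have hform : ∀ N : ℕ, 1 ≤ N → (fun v : ℝ => riemannZeta (sp y v) * Kn k c w v) =
      fun v : ℝ => (∑ n ∈ Finset.Icc 1 N, (n : ℂ) ^ (-(sp y v)) * Kn k c w v) -
        (N : ℂ) ^ (1 - sp y v) / (1 - sp y v) * Kn k c w v - er y N v * Kn k c w v := by
    intro N hN
    funext v
    rw [z_eq y v hN, sub_mul, sub_mul, Finset.sum_mul]
  have hzint : Integrable (fun v : ℝ => riemannZeta (sp y v) * Kn k c w v) := by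
    rw [hform 1 le_rfl]
    exact ((hsum 1).sub (hp 1 le_rfl)).sub (he 1 le_rfl)
  refine ⟨hzint, ?_⟩
  -- the identity with the error term
  have hid : ∀ N : ℕ, 1 ≤ N → Real.exp (c + w) ≤ N →
      (∫ v : ℝ, riemannZeta (sp y v) * Kn k c w v) =
        Dn β c w y - Rn β c w y - ∫ v : ℝ, er y N v * Kn k c w v := by
    intro N hN hNe
    have hN0 : (0 : ℝ) < N := by exact_mod_cast hN
    rw [hform N hN]
    have e1 : (∫ v : ℝ, (∑ n ∈ Finset.Icc 1 N, (n : ℂ) ^ (-(sp y v)) * Kn k c w v) -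
        (N : ℂ) ^ (1 - sp y v) / (1 - sp y v) * Kn k c w v - er y N v * Kn k c w v) =
        (∫ v : ℝ, ∑ n ∈ Finset.Icc 1 N, (n : ℂ) ^ (-(sp y v)) * Kn k c w v) -
        (∫ v : ℝ, (N : ℂ) ^ (1 - sp y v) / (1 - sp y v) * Kn k c w v) -
        ∫ v : ℝ, er y N v * Kn k c w v := by
      have a1 := integral_sub ((hsum N).sub (hp N hN)) (he N hN)
      have a2 := integral_sub (hsum N) (hp N hN)
      exact a1.trans (congrArg (fun z => z - ∫ v : ℝ, er y N v * Kn k c w v) a2)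
    rw [e1]
    have e2 : (∫ v : ℝ, (N : ℂ) ^ (1 - sp y v) / (1 - sp y v) * Kn k c w v) = Rn β c w y := by
      simp_rw [p_eq y _ hN]
      rw [pole hb c hw y (Real.log N)]
      apply rn_eq hb c hw
      rw [Real.le_log_iff_exp_le hN0]
      exact hNe
    have e3 : (∫ v : ℝ, ∑ n ∈ Finset.Icc 1 N, (n : ℂ) ^ (-(sp y v)) * Kn k c w v) = Dn β c w y := by
      rw [integral_finsetSum _ fun n hn => hs n (Finset.mem_Icc.mp hn).1]
      unfold Dn
      have e4 : ∑ n ∈ Finset.Icc 1 N, ∫ v : ℝ, (n : ℂ) ^ (-(sp y v)) * Kn k c w v =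
          ∑ n ∈ Finset.Icc 1 N, (β ((Real.log n - c) / w) : ℂ) * (n : ℂ) ^ (-(1 / 2 + (y : ℂ) * I)) :=
        Finset.sum_congr rfl fun n hn => t_four hb c hw y (Finset.mem_Icc.mp hn).1
      rw [e4]
      symm
      apply Finset.sum_subset
      · intro n hn
        rw [Finset.mem_Icc] at hn ⊢
        refine ⟨hn.1, hn.2.trans ?_⟩
        have := Nat.floor_le (Real.exp_pos (c + w)).le
        have h2 : ((⌊Real.exp (c + w)⌋₊ : ℕ) : ℝ) ≤ (N : ℝ) := this.trans hNe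
        exact_mod_cast h2
      · intro n hn hn2
        have hn1 := (Finset.mem_Icc.mp hn).1
        have hn0 : (0 : ℝ) < n := by exact_mod_cast hn1
        have h3 : ⌊Real.exp (c + w)⌋₊ < n := by
          by_contra h
          exact hn2 (Finset.mem_Icc.mpr ⟨hn1, not_lt.mp h⟩)
        have h4 : Real.exp (c + w) < n := (Nat.floor_lt (Real.exp_pos _).le).mp h3
        have h5 : c + w < Real.log n := by
          rw [Real.lt_log_iff_exp_lt hn0]
          exact h4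
        have h6 : β ((Real.log n - c) / w) = 0 := by
          apply hb.supp
          have hw0 : (0 : ℝ) < w := by linarith
          rw [abs_of_nonneg (div_nonneg (by linarith) hw0.le), le_div_iff₀ hw0]
          linarith
        rw [h6]
        simp
    rw [e2, e3]
  -- the limit
  set M : ℝ := w * C * ∫ v, maj v with hM
  set E : ℂ := Dn β c w y - ((∫ v : ℝ, riemannZeta (sp y v) * Kn k c w v) + Rn β c w y) with hE
  have hEN : ∀ᶠ N : ℕ in atTop, ‖E‖ ≤ ((1 + |y|) * 2 * M) * (N : ℝ) ^ (-(1 / 2) : ℝ) := by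
    filter_upwards [eventually_ge_atTop 1, eventually_ge_atTop ⌈Real.exp (c + w)⌉₊] with N hN hN2
    have h1 : Real.exp (c + w) ≤ N := (Nat.le_ceil _).trans (by exact_mod_cast hN2)
    have h2 := hid N hN h1
    have h3 : E = ∫ v : ℝ, er y N v * Kn k c w v := by
      rw [hE, h2]
      ring
    rw [h3]
    refine (gK_norm hb c hw (er_norm y hN)).trans (le_of_eq ?_)
    rw [hM]
    ring
  have hlim : Tendsto (fun N : ℕ => ((1 + |y|) * 2 * M) * (N : ℝ) ^ (-(1 / 2) : ℝ)) atTop (𝓝 0) := by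
    have h1 : Tendsto (fun N : ℕ => (N : ℝ) ^ (-(1 / 2) : ℝ)) atTop (𝓝 0) :=
      (tendsto_rpow_neg_atTop (by norm_num : (0 : ℝ) < 1 / 2)).comp tendsto_natCast_atTop_atTop
    have h2 := h1.const_mul ((1 + |y|) * 2 * M)
    rw [mul_zero] at h2
    exact h2
  have hE0 : ‖E‖ ≤ 0 := ge_of_tendsto hlim hEN
  have hE1 : E = 0 := norm_le_zero_iff.mp hE0
  rw [hE] at hE1
  exact sub_eq_zero.mp hE1

end

end Pool.Agent.H363.HD
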